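import Pool.Agent.Helper71.AG2.Goals
import Pool.Agent.Helper79.AG.MAX

/-!
# AG+-MAX: a self-centralizing abelian normal subgroup
-/

set_option autoImplicit false

namespace Pool.Agent.Helper79.AG2

universe u

open Pool.Agent.Helper32.AG Pool.Agent.Helper71.AG2

/-- **MAX'.** -/
theorem max (h1 : CoreStmt.{u}) (h2 : SolStmt.{u}) : Pool.Agent.Helper71.AG2.MaxStmt.{u} := by
  intro H _ _ hcls
  classical
  haveI hsol := h2 H hcls
  obtain ⟨T, _, f, hf, hfs, hab, htop⟩ := hcls
  let S : Set (Subgroup H) := {A | A.Normal ∧ ∀ x ∈ A, ∀ y ∈ A, x * y = y * x}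
  have hS : S.Nonempty := by
    refine ⟨⊥, inferInstance, ?_⟩
    intro x hx y hy
    rw [Subgroup.mem_bot] at hx hy
    rw [hx, hy]
  obtain ⟨A, hmax⟩ := S.toFinite.exists_maximal hS
  have hAS : A ∈ S := hmax.prop
  refine ⟨A, hAS.1, hAS.2, ?_⟩
  by_contra hC
  haveI hAn : A.Normal := hAS.1
  have hCn : (Subgroup.centralizer (A : Set H)).Normal := inferInstance
  have hAC : A ≤ Subgroup.centralizer (A : Set H) := by
    intro x hx
    rw [Subgroup.mem_centralizer_iff]
    intro y hy
    exact hAS.2 y hy x hx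
  set π := QuotientGroup.mk' A with hπ
  have hsurj : Function.Surjective π := QuotientGroup.mk'_surjective A
  have hker : π.ker = A := QuotientGroup.ker_mk' A
  have hQ : Group.IsSolvable (H ⧸ A) := Group.isSolvable_of_surjective hsurj
  have hC0 : (Subgroup.centralizer (A : Set H)).map π ≠ ⊥ := by
    intro h
    rw [Subgroup.map_eq_bot_iff, hker] at h
    exact hC h
  obtain ⟨B, hB1, hB2, hB3, hB4⟩ := Helper79.AG.exists_ab hQ _ (hCn.map π hsurj) hC0
  have hcn : (B.comap π).Normal := hB1.comap π
  have hAB : A ≤ B.comap π := by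
    intro x hx
    rw [Subgroup.mem_comap]
    have : π x = 1 := by
      rw [← MonoidHom.mem_ker, hker]; exact hx
    rw [this]; exact B.one_mem
  have hBC : B.comap π ≤ Subgroup.centralizer (A : Set H) := by
    intro x hx
    rw [Subgroup.mem_comap] at hx
    obtain ⟨y, hy, hyx⟩ := hB2 hx
    have h3 : y⁻¹ * x ∈ A := by
      rw [← hker, MonoidHom.mem_ker, map_mul, map_inv, hyx, inv_mul_cancel]
    have h4 : x = y * (y⁻¹ * x) := by group
    rw [h4]
    exact mul_mem hy (hAC h3)
  have hcomm : ∀ x ∈ B.comap π, ∀ y ∈ B.comap π, x * y * x⁻¹ * y⁻¹ ∈ A := by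
    intro x hx y hy
    rw [Subgroup.mem_comap] at hx hy
    have h3 : π x * π y * (π x)⁻¹ * (π y)⁻¹ ∈ ⁅B, B⁆ := by
      have := Subgroup.commutator_mem_commutator hx hy
      rwa [commutatorElement_def] at this
    rw [hB4, Subgroup.mem_bot] at h3
    rw [← hker, MonoidHom.mem_ker]
    simpa using h3
  have hLA : ¬ B.comap π ≤ A := by
    intro hle
    apply hB3
    rw [eq_bot_iff]
    intro b hb
    obtain ⟨x, rfl⟩ := hsurj b
    have hx : x ∈ A := hle (by rw [Subgroup.mem_comap]; exact hb)
    rw [← hker, MonoidHom.mem_ker] at hx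
    rw [hx]; exact Subgroup.one_mem _
  generalize B.comap π = L at hcn hAB hBC hcomm hLA
  haveI := hcn
  have hcen : ∀ a ∈ A, ∀ x ∈ L, a * x = x * a := by
    intro a ha x hx
    have := hBC hx
    rw [Subgroup.mem_centralizer_iff] at this
    exact this a ha
  -- maximality
  have hmaxX : ∀ X : Subgroup H, X.Normal → X ≤ L → (∀ x ∈ X, ∀ y ∈ X, x * y = y * x) →
      X ≤ A := by
    intro X hX hXL hXc
    have hXX : X ≤ Subgroup.centralizer (X : Set H) := by
      intro x hx
      rw [Subgroup.mem_centralizer_iff]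
      intro y hy
      exact hXc y hy x hx
    have hXA : X ≤ Subgroup.centralizer (A : Set H) := hXL.trans hBC
    have hAX : A ≤ Subgroup.centralizer (X : Set H) := Subgroup.le_centralizer_iff.1 hXA
    have hc : A ⊔ X ≤ Subgroup.centralizer ((A ⊔ X : Subgroup H) : Set H) := by
      refine sup_le ?_ ?_
      · exact Subgroup.le_centralizer_iff.1 (sup_le hAC hXA)
      · exact Subgroup.le_centralizer_iff.1 (sup_le hAX hXX)
    have hmem : A ⊔ X ∈ S := by
      refine ⟨inferInstance, fun x hx y hy => ?_⟩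
      have := hc hy
      rw [Subgroup.mem_centralizer_iff] at this
      exact this x hx
    exact le_sup_right.trans (hmax.le_of_ge hmem le_sup_left)
  have hcyc : ∀ (X : Subgroup H) (Q : Type u) [Group Q] (ψ : H →* Q) (z : Q), X.Normal → X ≤ L →
      (∀ x ∈ X, ψ x ∈ Subgroup.zpowers z) → (∀ x ∈ X, ψ x = 1 → x ∈ A) → X ≤ A := by
    intro X Q _ ψ z hX hXL h3 h4
    refine hmaxX X hX hXL ?_
    intro x hx y hy
    let φ : X →* Subgroup.zpowers z :=
      (ψ.comp X.subtype).codRestrict (Subgroup.zpowers z) (fun x => h3 x.1 x.2)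
    have h5 : φ.ker ≤ Subgroup.center X := by
      intro w hw
      rw [MonoidHom.mem_ker] at hw
      have h6 : ψ w.1 = 1 := congrArg Subtype.val hw
      have h7 := h4 w.1 w.2 h6
      rw [Subgroup.mem_center_iff]
      intro g
      exact Subtype.ext (hcen _ h7 _ (hXL g.2)).symm
    exact congrArg Subtype.val (commutative_of_cyclic_center_quotient φ h5 ⟨x, hx⟩ ⟨y, hy⟩)
  -- (i)
  have hi : ∀ x ∈ L, ∀ y ∈ L, f x * f y = f y * f x → x * y = y * x := by
    intro x hx y hy hxy
    have hcA : x⁻¹ * y⁻¹ * x * y ∈ A := by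
      have := hcomm x⁻¹ (inv_mem hx) y⁻¹ (inv_mem hy)
      simpa using this
    have hcN : x⁻¹ * y⁻¹ * x * y ∈ f.ker := by
      rw [MonoidHom.mem_ker]
      simp only [map_mul, map_inv]
      have : (f x)⁻¹ * (f y)⁻¹ * f x * f y = (f y * f x)⁻¹ * (f x * f y) := by group
      rw [this, hxy, inv_mul_cancel]
    have hn : 0 < Nat.card f.ker := Nat.card_pos
    have hpow : (x⁻¹ * y⁻¹ * x * y) ^ Nat.card f.ker = 1 := by
      have : (⟨x⁻¹ * y⁻¹ * x * y, hcN⟩ : f.ker) ^ Nat.card f.ker = 1 := pow_card_eq_one'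
      exact congrArg Subtype.val this
    have h3 := h1 H (Nat.card f.ker) hn hab x y (x⁻¹ * y⁻¹ * x * y) ?_
      (hcen _ hcA x hx) (hcen _ hcA y hy) hpow
    · have h4 : x * y = y * x * (x⁻¹ * y⁻¹ * x * y) := by group
      rw [h4, h3, mul_one]
    · group
  -- `L ⊓ N ≤ A`
  have hN : ∀ x ∈ L, f x = 1 → x ∈ A := by
    have : L ⊓ f.ker ≤ A := by
      refine hmaxX _ inferInstance inf_le_left ?_
      intro x hx y hy
      refine hi x hx.1 y hy.1 ?_
      have h3 : f x = 1 := hx.2
      have h4 : f y = 1 := hy.2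
      rw [h3, h4]
    exact fun x hx hx1 => this ⟨hx, hx1⟩
  apply hLA
  rcases htop with hss | hmet
  · -- supersolvable
    obtain ⟨n, K, hK0, hKn, hKN, hKs⟩ := hss
    have key : ∀ i, i ≤ n → L ⊓ (K i).comap f ≤ A := by
      intro i
      induction i with
      | zero =>
        intro _ x hx
        refine hN x hx.1 ?_
        have : f x ∈ K 0 := hx.2
        rwa [hK0, Subgroup.mem_bot] at this
      | succ i ih =>
        intro hi'
        obtain ⟨g, hg⟩ := hKs i (by omega)
        haveI := hKN i
        haveI := hKN (i + 1)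
        refine hcyc _ (T ⧸ K i) ((QuotientGroup.mk' (K i)).comp f) (QuotientGroup.mk' (K i) g)
          inferInstance inf_le_left ?_ ?_
        · intro x hx
          have h3 : f x ∈ K (i + 1) := hx.2
          rw [hg] at h3
          have h4 : (QuotientGroup.mk' (K i)) (f x) ∈
              (K i ⊔ Subgroup.zpowers g).map (QuotientGroup.mk' (K i)) :=
            Subgroup.mem_map_of_mem _ h3
          rw [Subgroup.map_sup, MonoidHom.map_zpowers] at h4
          have h5 : (K i).map (QuotientGroup.mk' (K i)) = ⊥ := by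
            rw [Subgroup.map_eq_bot_iff, QuotientGroup.ker_mk']
          rw [h5, bot_sup_eq] at h4
          exact h4
        · intro x hx hx1
          refine ih (by omega) ⟨hx.1, ?_⟩
          have h3 : f x ∈ (QuotientGroup.mk' (K i)).ker := hx1
          rw [QuotientGroup.ker_mk'] at h3
          exact h3
    intro x hx
    refine key n le_rfl ⟨hx, ?_⟩
    change f x ∈ K n
    rw [hKn]; trivial
  · -- metabelian
    have hX : L ⊓ commutator H ≤ A := by
      refine hmaxX _ inferInstance inf_le_left ?_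
      intro x hx y hy
      refine hi x hx.1 y hy.1 ?_
      have h3 : ∀ w ∈ commutator H, f w ∈ commutator T := by
        intro w hw
        have : commutator H ≤ (commutator T).comap f := by
          rw [commutator_def, Subgroup.commutator_le]
          intro a _ b _
          rw [Subgroup.mem_comap, map_commutatorElement, commutator_def]
          exact Subgroup.commutator_mem_commutator trivial trivial
        exact this hw
      exact hmet _ (h3 x hx.2) _ (h3 y hy.2)
    intro x hx
    have hcent : ∀ h : H, π h * π x * (π h)⁻¹ = π x := by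
      intro h
      have h3 : h * x * h⁻¹ * x⁻¹ ∈ A := by
        refine hX ⟨L.mul_mem (hcn.conj_mem x hx h) (L.inv_mem hx), ?_⟩
        have := Subgroup.commutator_mem_commutator (H₁ := (⊤ : Subgroup H)) (H₂ := ⊤)
          (g₁ := h) (g₂ := x) trivial trivial
        rw [commutatorElement_def] at this
        rw [commutator_def]
        exact this
      rw [← hker, MonoidHom.mem_ker] at h3
      simp only [map_mul, map_inv] at h3
      exact mul_inv_eq_one.1 h3
    have hzn : (Subgroup.zpowers (π x)).Normal := by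
      refine ⟨fun q hq y => ?_⟩
      obtain ⟨h, rfl⟩ := hsurj y
      obtain ⟨m, rfl⟩ := Subgroup.mem_zpowers_iff.1 hq
      rw [← conj_zpow, hcent h]
      exact Subgroup.zpow_mem_zpowers _ _
    have h5 : (Subgroup.zpowers (π x)).comap π ≤ A := by
      refine hcyc _ (H ⧸ A) π (π x) (hzn.comap π) ?_ ?_ ?_
      · intro y hy
        obtain ⟨m, hm⟩ := Subgroup.mem_zpowers_iff.1 (Subgroup.mem_comap.1 hy)
        have h6 : (x ^ m)⁻¹ * y ∈ A := by
          rw [← hker, MonoidHom.mem_ker, map_mul, map_inv, map_zpow, hm, inv_mul_cancel]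
        have h7 : y = x ^ m * ((x ^ m)⁻¹ * y) := by group
        rw [h7]
        exact mul_mem (zpow_mem hx m) (hAB h6)
      · intro y hy
        exact hy
      · intro y _ hy
        rw [← hker, MonoidHom.mem_ker]
        exact hy
    exact h5 (by rw [Subgroup.mem_comap]; exact Subgroup.mem_zpowers _)

end Pool.Agent.Helper79.AG2
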